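import Pool.Agent.Helper20_TWS.Stmts

/-! W_surface, modules FLO and SRG. -/

set_option autoImplicit false

namespace Pool.Agent.TWS.H79

open Pool.Agent.TOR Pool.Agent.TOR.H58 Pool.Agent.TWS Finsupp

section map

variable {V W M : Type} [AddCommGroup M]

/-- the map of chains induced by a map of vertices -/
noncomputable def mf (φ : V → W) : (List V →₀ M) →+ (List W →₀ M) :=
  Finsupp.mapDomain.addMonoidHom (List.map φ)

theorem mf_single (φ : V → W) (l : List V) (m : M) :
    mf φ (single l m) = single (l.map φ) m := by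
  simp [mf, Finsupp.mapDomain.addMonoidHom, Finsupp.mapDomain_single]

theorem mf_cns (φ : V → W) (v : V) (c : List V →₀ M) :
    mf φ (cns v c) = cns (φ v) (mf φ c) := by
  induction c using Finsupp.induction_linear with
  | zero => simp
  | add f g hf hg => rw [map_add, map_add, hf, hg, map_add, map_add]
  | single l m => rw [cns_single, mf_single, mf_single, cns_single, List.map_cons]

theorem mf_bd (φ : V → W) (c : List V →₀ M) : mf φ (bd c) = bd (mf φ c) := by
  induction c using Finsupp.induction_linear with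
  | zero => simp
  | add f g hf hg => rw [map_add, map_add, hf, hg, map_add, map_add]
  | single l m =>
    rw [mf_single, bd_single, bd_single]
    induction l with
    | nil => simp [bd1_nil]
    | cons v l ih =>
      rw [List.map_cons, bd1_cons, bd1_cons, map_sub, mf_cns, ih, mf_single]

theorem mf_mem_Sup {Q : List V → Prop} {Q' : List W → Prop} {φ : V → W}
    (h : ∀ l, Q l → Q' (l.map φ)) {c : List V →₀ M} (hc : c ∈ Sup M Q) : mf φ c ∈ Sup M Q' := by
  rw [← Finsupp.sum_single c, Finsupp.sum, map_sum]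
  refine AddSubgroup.sum_mem _ fun l hl => ?_
  rw [mf_single]
  exact single_mem_Sup (h l (hc l (Finsupp.mem_support_iff.mp hl))) _

theorem mf_mf_eq {Q' : List W → Prop} {φ : V → W} {ρ : W → V}
    (h : ∀ l, Q' l → (l.map ρ).map φ = l) {c : List W →₀ M} (hc : c ∈ Sup M Q') :
    mf φ (mf ρ c) = c := by
  conv_rhs => rw [← Finsupp.sum_single c]
  conv_lhs => rw [← Finsupp.sum_single c]
  rw [Finsupp.sum, map_sum, map_sum]
  refine Finset.sum_congr rfl fun l hl => ?_
  rw [mf_single, mf_single, h l (hc l (Finsupp.mem_support_iff.mp hl))]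

theorem acyc_of_map (f : V → W) (ρ : W → V) (K : Set V → Prop) (K' : Set W → Prop)
    (h1 : ∀ l : List W, KL K' l → KL K (l.map ρ)) (h1' : ∀ l : List W, KL K' l → (l.map ρ).map f = l)
    (h2 : ∀ l : List V, KL K l → KL K' (l.map f)) (h : Acyc M K) : Acyc M K' := by
  intro c hc hb
  obtain ⟨b, hb1, hb2⟩ := h (mf ρ c) (mf_mem_Sup h1 hc) (by rw [← mf_bd, hb, map_zero])
  refine ⟨mf f b, mf_mem_Sup h2 hb1, ?_⟩
  rw [← mf_bd, hb2, mf_mf_eq h1' hc]

end map

/-- class modulo N' -/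
noncomputable def PN (n : ℕ) (N' : Submodule ℚ (Hn n)) : Fn n →* Multiplicative (Hn n ⧸ N') :=
  (AddMonoidHom.toMultiplicative N'.mkQ.toAddMonoidHom).comp (hc n)

theorem PN_ne {n : ℕ} {N' : Submodule ℚ (Hn n)} {k : Fn n} : PN n N' k ≠ 1 ↔ cls k ∉ N' := by
  have h : PN n N' k = Multiplicative.ofAdd (N'.mkQ (cls k)) := rfl
  rw [h, Ne, ofAdd_eq_one, Submodule.mkQ_apply, Submodule.Quotient.mk_eq_zero]

theorem flo : FloS := by
  classical
  intro n M _ κ hκ hκκ i N' hex
  obtain ⟨v0, hv0, hv0N⟩ := hex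
  let T : Set (ℕ × Fn n) := (fun p : ℕ × Av n => (p.1, p.2.1)) '' κ
  let e : H59.AV (H59.sR n) i T (PN n N') := ⟨v0.1, v0.2, PN_ne.2 hv0N, by
    rintro _ ⟨p, hp, rfl⟩
    exact hv0 _ (Set.mem_insert _ _) p (Set.mem_insert_of_mem _ hp)⟩
  have hfl := H59.fla (H59.sR n) i T (PN n N') M e
  let f : H59.AV (H59.sR n) i T (PN n N') → Av n := fun v => ⟨v.1, v.2.1⟩
  let good : Av n → Prop := fun v => PN n N' v.1 ≠ 1 ∧ ∀ x ∈ T, H59.Cmp (H59.sR n) i v.1 x.1 x.2
  let ρ : Av n → H59.AV (H59.sR n) i T (PN n N') := fun v =>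
    if h : good v then ⟨v.1, v.2, h.1, h.2⟩ else e
  have hρ : ∀ v, good v → f (ρ v) = v := by
    intro v hv
    have h0 : ρ v = ⟨v.1, v.2, hv.1, hv.2⟩ := dif_pos hv
    rw [h0]
  have hgood : ∀ s : Set (Av n), ((∀ p ∈ κ ∪ gp i s, ∀ q ∈ κ ∪ gp i s, Ca n p q) ∧
      ∀ v ∈ s, cla v ∉ N') → ∀ v ∈ s, good v := by
    rintro s ⟨h1, h2⟩ v hv
    refine ⟨PN_ne.2 (h2 v hv), ?_⟩
    rintro _ ⟨p, hp, rfl⟩
    exact h1 _ (Or.inr ⟨v, hv, rfl⟩) p (Or.inl hp)
  refine acyc_of_map f ρ _ _ ?_ ?_ ?_ hfl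
  · intro l hl
    change ∀ v ∈ {a | a ∈ l.map ρ}, ∀ w ∈ {a | a ∈ l.map ρ}, H59.Cmp (H59.sR n) i v.1 i w.1
    intro v hv w hw
    obtain ⟨a, ha, rfl⟩ := List.mem_map.1 hv
    obtain ⟨b, hb, rfl⟩ := List.mem_map.1 hw
    have e1 := hρ a (hgood _ hl a ha)
    have e2 := hρ b (hgood _ hl b hb)
    have e3 : (ρ a).1 = a.1 := congrArg Subtype.val e1
    have e4 : (ρ b).1 = b.1 := congrArg Subtype.val e2
    rw [e3, e4]
    exact hl.1 _ (Or.inr ⟨a, ha, rfl⟩) _ (Or.inr ⟨b, hb, rfl⟩)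
  · intro l hl
    rw [List.map_map]
    conv_rhs => rw [← List.map_id l]
    exact List.map_congr_left fun a ha => hρ a (hgood _ hl a ha)
  · intro l hl
    refine ⟨?_, ?_⟩
    · rintro p (hp | ⟨v, hv, rfl⟩) q (hq | ⟨w, hw, rfl⟩)
      · exact hκκ p hp q hq
      · obtain ⟨b, hb, rfl⟩ := List.mem_map.1 hw
        exact (b.2.2.2 _ ⟨p, hp, rfl⟩).symm
      · obtain ⟨a, ha, rfl⟩ := List.mem_map.1 hv
        exact a.2.2.2 _ ⟨q, hq, rfl⟩
      · obtain ⟨a, ha, rfl⟩ := List.mem_map.1 hv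
        obtain ⟨b, hb, rfl⟩ := List.mem_map.1 hw
        exact hl a ha b hb
    · intro v hv
      obtain ⟨a, ha, rfl⟩ := List.mem_map.1 hv
      exact PN_ne.1 a.2.2.1

theorem PN_mul {n : ℕ} {N' : Submodule ℚ (Hn n)} (a b : Fn n) :
    PN n N' (a * b) = PN n N' a * PN n N' b := map_mul _ _ _

theorem srg : SrgS := by
  classical
  intro n τ κ i N' hτ hκ hpw hκi hex
  obtain ⟨v0, hv0, hv0N⟩ := hex
  -- total number of crossings with κ
  let μ : Av n → ℕ := fun v => ∑ e ∈ hκ.toFinset, H59.cr (H59.sR n) i e.2.1 i v.1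
  have main : ∀ N : ℕ, ∀ v : Av n, μ v ≤ N → (∀ p ∈ τ, Ca n p (i, v)) → cla v ∉ N' →
      ∃ v : Av n, (∀ p ∈ τ ∪ κ, Ca n p (i, v)) ∧ cla v ∉ N' := by
    intro N
    induction N with
    | zero =>
      intro v hμ hv hvN
      refine ⟨v, ?_, hvN⟩
      rintro p (hp | hp)
      · exact hv p hp
      · have h0 : H59.cr (H59.sR n) i p.2.1 i v.1 = 0 :=
          (Finset.sum_eq_zero_iff.1 (Nat.le_zero.1 hμ)) p (hκ.mem_toFinset.2 hp)
        have h1 := H59.cr_eq_zero.1 h0
        change H59.Cmp (H59.sR n) p.1 p.2.1 i v.1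
        rw [hκi p hp]
        exact h1
    | succ N ih =>
      intro v hμ hv hvN
      by_cases hall : ∀ p ∈ κ, H59.cr (H59.sR n) i p.2.1 i v.1 = 0
      · exact ih v (le_trans (le_of_eq (Finset.sum_eq_zero fun p hp =>
          hall p (hκ.mem_toFinset.1 hp))) (Nat.zero_le _)) hv hvN
      push Not at hall
      obtain ⟨e, he, hne⟩ := hall
      let L : Set (Fn n) := {v.1, v.1⁻¹}
      have hinv : ∀ k ∈ L, k⁻¹ ∈ L := by
        rintro k (rfl | rfl)
        · exact Or.inr rfl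
        · exact Or.inl (inv_inv _)
      have hex' : ∃ g k, k ∈ L ∧ H59.Lo (H59.sR n) (1, i) (e.2.1, i) (g, i) (g * k, i) := by
        have h1 : ¬ H59.Cmp (H59.sR n) i e.2.1 i v.1 := fun h' => hne (H59.cr_eq_zero.2 h')
        unfold H59.Cmp at h1
        push Not at h1
        obtain ⟨g, hg⟩ := h1
        exact ⟨g, v.1, Or.inl rfl, hg⟩
      obtain ⟨g, k, hs⟩ := H59.exists_sg (H59.sR n) i e.2.1 L (Set.toFinite _) hinv hex'
      have hvk : k = v.1 ∨ k = v.1⁻¹ := hs.mem
      have ee : H59.Cmp (H59.sR n) i e.2.1 i e.2.1 := H59.cmp_same e.2.2.2.2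
      have vv : H59.Cmp (H59.sR n) i v.1 i v.1 := H59.cmp_same v.2.2.2
      have kk : ∀ {j : ℕ} {m : Fn n}, H59.Cmp (H59.sR n) i v.1 j m → H59.Cmp (H59.sR n) i k j m := by
        intro j m h
        rcases hvk with h' | h' <;> rw [h']
        · exact h
        · exact h.inv_left
      have kks : H59.Cmp (H59.sR n) i k i k := kk (kk vv).symm
      have hcr : ∀ m : Fn n, H59.cr (H59.sR n) i m i k = H59.cr (H59.sR n) i m i v.1 := by
        intro m
        rcases hvk with h' | h' <;> rw [h']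
        exact H59.cr_inv (H59.sR n) i m i v.1
      have hPk : PN n N' k ≠ 1 := by
        rcases hvk with h' | h' <;> rw [h']
        · exact PN_ne.2 hvN
        · rw [_root_.map_inv]
          simpa using PN_ne.2 hvN
      have hg1 : g ≠ 1 := by rintro rfl; exact hs.h1.ne12 rfl
      have hgk1 : g * k ≠ 1 := by
        intro h; have := hs.h2.ne23; rw [h] at this; exact this rfl
      have hee' : ∀ p ∈ κ, H59.Cmp (H59.sR n) i e.2.1 i p.2.1 := by
        intro p hp
        have := hpw e (Or.inr he) p (Or.inr hp)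
        unfold Ca at this
        rwa [hκi e he, hκi p hp] at this
      have good : ∀ w : Fn n, w ≠ 1 → PN n N' w ≠ 1 → H59.Cmp (H59.sR n) i w i w →
          (∀ x ∈ τ, H59.Cmp (H59.sR n) i w x.1 x.2.1) →
          (∀ p ∈ κ, H59.cr (H59.sR n) i p.2.1 i w ≤ H59.cr (H59.sR n) i p.2.1 i k) →
          H59.cr (H59.sR n) i e.2.1 i w < H59.cr (H59.sR n) i e.2.1 i k →
          ∃ v : Av n, (∀ p ∈ τ ∪ κ, Ca n p (i, v)) ∧ cla v ∉ N' := by
        intro w hw1 hPw hww hwT hle hlt
        let w' : Av n := ⟨H59.prep (H59.sR n) w, H59.arc_prep hw1 (H59.cmp_same hww)⟩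
        have hcw : ∀ m : Fn n, H59.cr (H59.sR n) i m i w'.1 = H59.cr (H59.sR n) i m i w :=
          fun m => H59.cr_prep (H59.sR n) i m i w
        refine ih w' ?_ ?_ ?_
        · have h1 : μ w' < μ v := by
            refine Finset.sum_lt_sum ?_ ⟨e, hκ.mem_toFinset.2 he, ?_⟩
            · intro p hp
              rw [hcw, ← hcr]
              exact hle p (hκ.mem_toFinset.1 hp)
            · rw [hcw, ← hcr]; exact hlt
          omega
        · intro p hp
          change H59.Cmp (H59.sR n) p.1 p.2.1 i (H59.prep (H59.sR n) w)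
          exact H59.cmp_prep_right.2 (hwT p hp).symm
        · refine PN_ne.1 ?_
          change PN n N' (H59.prep (H59.sR n) w) ≠ 1
          rcases H59.prep_or (H59.sR n) w with h | h <;> rw [h]
          · exact hPw
          · rw [_root_.map_inv]; simpa using hPw
      have hself := hs.cmp_self hinv kks ee
      have hcrlt := hs.cr_lt ee
      have hP : PN n N' g ≠ 1 ∨ PN n N' (g * k) ≠ 1 := by
        by_contra hcon
        push Not at hcon
        rw [_root_.map_mul, hcon.1, one_mul] at hcon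
        exact hPk hcon.2
      have hT : ∀ x ∈ τ, H59.Cmp (H59.sR n) i g x.1 x.2.1 ∧
          H59.Cmp (H59.sR n) i (g * k) x.1 x.2.1 := by
        intro x hx
        refine hs.cmp_tau (kk (hv x hx).symm) ?_
        have h1 := hpw e (Or.inr he) x (Or.inl hx)
        unfold Ca at h1
        rwa [hκi e he] at h1
      have hle : ∀ p ∈ κ, H59.cr (H59.sR n) i p.2.1 i g ≤ H59.cr (H59.sR n) i p.2.1 i k ∧
          H59.cr (H59.sR n) i p.2.1 i (g * k) ≤ H59.cr (H59.sR n) i p.2.1 i k :=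
        fun p hp => hs.cr_le (hee' p hp)
      rcases hP with hP | hP
      · exact good g hg1 hP hself.1 (fun x hx => (hT x hx).1) (fun p hp => (hle p hp).1) hcrlt.1
      · exact good (g * k) hgk1 hP hself.2 (fun x hx => (hT x hx).2) (fun p hp => (hle p hp).2)
          hcrlt.2
  exact main (μ v0) v0 le_rfl hv0 hv0N

end Pool.Agent.TWS.H79
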